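import Mathlib
import Pool.Agent.Helper20.FF.Defs

/-!
# Few runs: the difference generates the group
-/

set_option autoImplicit false

open scoped Pointwise

namespace Pool.Agent.Helper77.FF

open Pool.Agent.Helper82.Kneser Pool.Agent.Helper20.Span Pool.Agent.Helper20.FF

/-- the cardinality of a periodic set -/
lemma dvd_card_periodic (n : ℕ) [NeZero n] {K C : Finset (ZMod n)} (hK : IsSub K)
    (hC : C + K = C) : K.card ∣ C.card := by
  classical
  obtain ⟨d, hd, hKd, hker⟩ := sub_eq_ker n hK
  have hdpos : 0 < d := Nat.pos_of_dvd_of_pos hd (NeZero.pos n)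
  have : NeZero d := ⟨hdpos.ne'⟩
  set f : ZMod n →+ ZMod d := (ZMod.castHom hd (ZMod d)).toAddMonoidHom with hf
  have hfs : Function.Surjective f := ZMod.castHom_surjective hd
  have hCp : C = pre f (C.image f) := by
    ext x
    rw [mem_pre, Finset.mem_image]
    constructor
    · intro hx
      exact ⟨x, hx, rfl⟩
    · rintro ⟨y, hy, hyx⟩
      have h1 : x - y ∈ K := by
        rw [hker]
        have h2 : f (x - y) = 0 := by rw [map_sub, hyx, sub_self]
        exact h2
      have h3 : y + (x - y) ∈ C + K := Finset.add_mem_add hy h1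
      rw [hC] at h3
      rwa [show y + (x - y) = x by abel] at h3
  have h1 := card_pre hfs (C.image f)
  rw [← hCp, ZMod.card, ZMod.card] at h1
  refine ⟨(C.image f).card, ?_⟩
  have h2 : C.card * d = (K.card * (C.image f).card) * d := by
    have h3 : (C.image f).card * n = (C.image f).card * (K.card * d) :=
      congrArg (fun t => (C.image f).card * t) hKd.symm
    rw [h1, h3]; ring
  exact Nat.eq_of_mul_eq_mul_right hdpos h2

lemma unit_of_cyc (n : ℕ) [NeZero n] {r : ZMod n} (h : (cyc r).card = n) : IsUnit r := by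
  classical
  have h1 : cyc r = Finset.univ := by
    apply Finset.eq_univ_of_card
    rw [h, ZMod.card]
  have h2 : (1 : ZMod n) ∈ cyc r := by rw [h1]; exact Finset.mem_univ _
  rw [mem_cyc, AddSubgroup.mem_zmultiples_iff] at h2
  obtain ⟨z, hz⟩ := h2
  rw [zsmul_eq_mul] at hz
  exact IsUnit.of_mul_eq_one_right _ hz

/-- the decomposition of `A + K` -/
lemma decomp (n : ℕ) [NeZero n] {A K E Af : Finset (ZMod n)} {r : ZMod n} (hK : K = cyc r)
    (hE : E = (A ∪ tr A r) \ A) (hAf : Af = A.filter (fun a => ∀ k ∈ K, a + k ∈ A)) :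
    Af + K = Af ∧ A + K = Af ∪ (E + K) ∧ Disjoint Af (E + K) := by
  classical
  have hKs : IsSub K := by rw [hK]; exact isSub_cyc r
  have hrK : r ∈ K := by rw [hK, mem_cyc]; exact AddSubgroup.mem_zmultiples r
  have hper : Af + K = Af := by
    apply Finset.Subset.antisymm
    · intro x hx
      obtain ⟨a, ha, k, hk, rfl⟩ := Finset.mem_add.1 hx
      rw [hAf, Finset.mem_filter] at ha ⊢
      refine ⟨ha.2 k hk, ?_⟩
      intro k' hk'
      rw [add_assoc]
      exact ha.2 _ (hKs.add hk hk')
    · exact subset_add_sub hKs Af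
  refine ⟨hper, ?_, ?_⟩
  · apply Finset.Subset.antisymm
    · intro x hx
      obtain ⟨a, ha, k, hk, rfl⟩ := Finset.mem_add.1 hx
      rw [Finset.mem_union]
      by_cases haf : a ∈ Af
      · left
        rw [← hper]
        exact Finset.add_mem_add haf hk
      · right
        have h1 : ∃ k' ∈ K, a + k' ∉ A := by
          by_contra hcon
          push Not at hcon
          exact haf (by rw [hAf, Finset.mem_filter]; exact ⟨ha, hcon⟩)
        obtain ⟨k', hk', hk'A⟩ := h1
        have h2 : ∃ e ∈ E, e - a ∈ K := by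
          by_contra hcon
          push Not at hcon
          have h3 : ∀ y ∈ A.filter (fun y => y - a ∈ K), y - (-r) ∈ A.filter (fun y => y - a ∈ K) := by
            intro y hy
            rw [Finset.mem_filter] at hy ⊢
            have h4 : y - (-r) - a ∈ K := by
              rw [show y - (-r) - a = (y - a) + r by abel]
              exact hKs.add hy.2 hrK
            refine ⟨?_, h4⟩
            by_contra h5
            apply hcon (y - (-r)) ?_ h4
            rw [hE, Finset.mem_sdiff, Finset.mem_union, mem_tr]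
            refine ⟨Or.inr ?_, h5⟩
            rw [show y - (-r) - r = y by abel]
            exact hy.1
          have h6 : k' ∈ AddSubgroup.zmultiples (-r) := by
            rw [hK, mem_cyc] at hk'
            rw [AddSubgroup.mem_zmultiples_iff] at hk' ⊢
            obtain ⟨z, hz⟩ := hk'
            exact ⟨-z, by rw [neg_zsmul, zsmul_neg, neg_neg, hz]⟩
          have h7 : a ∈ A.filter (fun y => y - a ∈ K) := by
            rw [Finset.mem_filter, sub_self]
            exact ⟨ha, hKs.zero⟩
          have h8 := closed_step h3 h7 h6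
          exact hk'A (Finset.mem_filter.1 h8).1
        obtain ⟨e, he, hea⟩ := h2
        refine Finset.mem_add.2 ⟨e, he, k - (e - a), hKs.sub hk hea, by abel⟩
    · apply Finset.union_subset
      · intro x hx
        rw [hAf, Finset.mem_filter] at hx
        exact subset_add_sub hKs A hx.1
      · intro x hx
        obtain ⟨e, he, k, hk, rfl⟩ := Finset.mem_add.1 hx
        rw [hE, Finset.mem_sdiff, Finset.mem_union, mem_tr] at he
        rcases he.1 with h | h
        · exact absurd h he.2
        · exact Finset.mem_add.2 ⟨e - r, h, r + k, hKs.add hrK hk, by abel⟩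
  · rw [Finset.disjoint_left]
    intro x hx hx'
    obtain ⟨e, he, k, hk, rfl⟩ := Finset.mem_add.1 hx'
    rw [hAf, Finset.mem_filter] at hx
    rw [hE, Finset.mem_sdiff] at he
    apply he.2
    have := hx.2 (-k) (hKs.neg hk)
    rwa [show e + k + -k = e by abel] at this

/-- the numerical data -/
lemma data (n h k ε ρ : ℕ) [NeZero n] (hh : 3 ≤ h) (hn : n = h * k + ε)
    (hε : ε ≤ 1) {A : Finset (ZMod n)} (hk : A.card = k) (hA : ns A h ≠ Finset.univ)
    (hNQ : NQ (1 - ε) A) {r : ZMod n} (hr : r ≠ 0) (hu : ¬ IsUnit r) (hρ : 1 ≤ ρ)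
    (h2 : (A ∪ tr A r).card = k + ρ) :
    ∃ κ f p : ℕ, 2 ≤ κ ∧ κ < n ∧ κ ∣ n ∧ κ ∣ f ∧ p ≤ ρ ∧ f < k ∧ k + κ + (1 - ε) ≤ f + p * κ ∧
      (f = 0 ∨ ∃ s, κ ∣ s ∧ s ∣ n ∧ 0 < s ∧ s < n ∧ f + s ≤ k + ε ∧
        (s = κ → f + (h - 1) * (f + p * κ) + κ ≤ n + (h - 1) * κ)) := by
  classical
  set K := cyc r with hK
  set E := (A ∪ tr A r) \ A with hE
  set Af := A.filter (fun a => ∀ k ∈ K, a + k ∈ A) with hAf
  obtain ⟨hper, hdec, hdis⟩ := decomp n hK hE hAf
  have hKs : IsSub K := isSub_cyc r
  have hrK : r ∈ K := by rw [hK, mem_cyc]; exact AddSubgroup.mem_zmultiples r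
  have hKle : K.card ≤ n := by
    have := Finset.card_le_univ K
    rwa [ZMod.card] at this
  have hKn : K.card ≠ n := fun h => hu (unit_of_cyc n h)
  have hK2 : 2 ≤ K.card := by
    have h3 : ({0, r} : Finset (ZMod n)) ⊆ K := by
      intro y hy
      rw [Finset.mem_insert, Finset.mem_singleton] at hy
      rcases hy with rfl | rfl
      · exact hKs.zero
      · exact hrK
    have h4 := Finset.card_le_card h3
    rwa [Finset.card_pair (Ne.symm hr)] at h4
  have hKdvd : ∀ S : Finset (ZMod n), IsSub S → S.card ∣ n := by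
    intro S hS
    obtain ⟨d, hd, hKd, -⟩ := sub_eq_ker n hS
    exact ⟨d, hKd.symm⟩
  have hEcard : E.card = ρ := by
    rw [hE, Finset.card_sdiff_of_subset Finset.subset_union_left, h2, hk]
    omega
  have hEK : K.card ∣ (E + K).card := by
    apply dvd_card_periodic n hKs
    rw [add_assoc, sub_add_self hKs]
  obtain ⟨p, hp⟩ := hEK
  have hpρ : p ≤ ρ := by
    have h3 : (E + K).card ≤ E.card * K.card := Finset.card_add_le
    rw [hp, hEcard, mul_comm] at h3
    exact Nat.le_of_mul_le_mul_right h3 (by omega)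
  have hAK : (A + K).card = Af.card + p * K.card := by
    rw [hdec, Finset.card_union_of_disjoint hdis, hp, mul_comm]
  have hAfA : Af ⊆ A := Finset.filter_subset _ _
  have hEne : E.Nonempty := by
    rw [← Finset.card_pos]; omega
  have hAfk : Af.card < k := by
    have h3 := Finset.card_le_card hAfA
    rcases h3.lt_or_eq with h4 | h4
    · omega
    · exfalso
      have h5 : Af = A := Finset.eq_of_subset_of_card_le hAfA h4.ge
      obtain ⟨e, he⟩ := hEne
      have h6 := he
      rw [hE, Finset.mem_sdiff, Finset.mem_union, mem_tr] at h6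
      rcases h6.1 with h7 | h7
      · exact h6.2 h7
      · rw [← h5, hAf, Finset.mem_filter] at h7
        have := h7.2 r hrK
        rw [show e - r + r = e by abel] at this
        exact h6.2 this
  have hnq := hNQ K hKs hK2 (by rw [ZMod.card]; omega)
  rw [hAK, hk] at hnq
  refine ⟨K.card, Af.card, p, hK2, by omega, hKdvd K hKs, dvd_card_periodic n hKs hper, hpρ, hAfk,
    hnq, ?_⟩
  rcases Finset.eq_empty_or_nonempty Af with h0 | hne
  · left
    rw [h0, Finset.card_empty]
  · right
    have hAne : A.Nonempty := hne.mono hAfA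
    have hWne : (Af + ns A (h - 1)).Nonempty := hne.add (ns_nonempty hAne _)
    have hki := kneser_iter hne hAne (h - 1)
    set W := Af + ns A (h - 1) with hW
    set S := stab W with hS
    have hSs : IsSub S := isSub_stab hWne
    have hWsub : W ⊆ ns A h := by
      have h3 : ns A h = A + ns A (h - 1) := by
        conv_lhs => rw [show h = (h - 1) + 1 by omega, ns_succ, add_comm]
      rw [h3]
      exact Finset.add_subset_add_right hAfA
    obtain ⟨x, hx⟩ : ∃ x, x ∉ ns A h := by
      by_contra hcon
      push Not at hcon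
      exact hA (Finset.eq_univ_iff_forall.2 hcon)
    have hxW : x ∉ W := fun h => hx (hWsub h)
    have hKS : K ⊆ S := by
      intro κ hκ
      rw [hS, mem_stab hWne]
      intro w hw
      obtain ⟨u, hu', v, hv, rfl⟩ := Finset.mem_add.1 hw
      rw [show κ + (u + v) = (u + κ) + v by abel]
      apply Finset.add_mem_add _ hv
      rw [← hper]
      exact Finset.add_mem_add hu' hκ
    have hWS : W.card + S.card ≤ n := by
      have h3 : Disjoint W (tr S x) := by
        rw [Finset.disjoint_left]
        intro w hw hw'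
        rw [mem_tr] at hw'
        apply hxW
        have h4 : -(w - x) ∈ S := hSs.neg hw'
        have h5 := add_mem_of_mem_stab h4 hw
        rwa [show -(w - x) + w = x by abel] at h5
      have h4 := Finset.card_le_univ (W ∪ tr S x)
      rw [Finset.card_union_of_disjoint h3, card_tr, ZMod.card] at h4
      exact h4
    have hWpos : 0 < W.card := Finset.card_pos.2 hWne
    have hKScard := Finset.card_le_card hKS
    have hSn : S.card < n := by omega
    have hnqS := hNQ S hSs (by omega) (by rw [ZMod.card]; exact hSn)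
    rw [hk] at hnqS
    have hAfS : Af.card ≤ (Af + S).card := Finset.card_le_card (subset_add_sub hSs Af)
    have hSK : K.card ∣ S.card := by
      apply dvd_card_periodic n hKs
      apply Finset.Subset.antisymm
      · intro y hy
        obtain ⟨a, ha, b, hb, rfl⟩ := Finset.mem_add.1 hy
        exact hSs.add ha (hKS hb)
      · exact subset_add_sub hKs S
    refine ⟨S.card, hSK, hKdvd S hSs, by omega, hSn, ?_, ?_⟩
    · have h3 : (h - 1) * (k + S.card + (1 - ε)) ≤ (h - 1) * (A + S).card :=
        Nat.mul_le_mul_left _ hnqS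
      obtain ⟨g, rfl⟩ : ∃ g, h = g + 1 := ⟨h - 1, by omega⟩
      simp only [Nat.add_sub_cancel] at *
      have h4 : g * (k + S.card + (1 - ε)) = g * k + g * S.card + g * (1 - ε) := by ring
      have h5 : (g + 1) * k = g * k + k := by ring
      omega
    · intro hsk
      have hSKeq : K = S := Finset.eq_of_subset_of_card_le hKS (by omega)
      rw [← hSKeq, hper, hAK] at hki
      rw [← hSKeq] at hWS
      omega

/-- (P3a) two runs: the difference generates -/
theorem gen_two (n h k ε : ℕ) [NeZero n] (hh : 3 ≤ h) (ht : Tame n h) (hn : n = h * k + ε)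
    (hε : ε ≤ 1) {A : Finset (ZMod n)} (hk : A.card = k) (hA : ns A h ≠ Finset.univ)
    (hNQ : NQ (1 - ε) A) {r : ZMod n} (hr : r ≠ 0) (h2 : (A ∪ tr A r).card = k + 2) :
    IsUnit r := by
  by_contra hu
  obtain ⟨κ, f, p, hκ2, hκn, hκd, hκf, hp2, hfk, hnq, hF⟩ :=
    data n h k ε 2 hh hn hε hk hA hNQ hr hu (by norm_num) h2
  have hp : p = 2 := by
    rcases Nat.lt_or_ge p 2 with h3 | h3
    · exfalso
      have h4 : p * κ ≤ 1 * κ := Nat.mul_le_mul_right _ (by omega)
      omega
    · omega
  subst hp
  -- divisors when `ε = 1`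
  have hmod : ε = 1 → ∀ e, e ∣ n → e % h = 1 := by
    intro he e hed
    rcases ht e hed with h3 | h3
    · exfalso
      have h4 : h ∣ n := (Nat.dvd_of_mod_eq_zero h3).trans hed
      rw [hn, he] at h4
      have h5 : h ∣ 1 := (Nat.dvd_add_right (Dvd.intro k rfl)).1 h4
      have := Nat.le_of_dvd one_pos h5
      omega
    · exact h3
  obtain ⟨N, hN⟩ := hκd
  have hN2 : 2 ≤ N := by
    rcases Nat.lt_or_ge N 2 with h3 | h3
    · have : κ * N ≤ κ * 1 := Nat.mul_le_mul_left _ (by omega)
      omega
    · exact h3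
  have hNd : N ∣ n := ⟨κ, by rw [hN, mul_comm]⟩
  rcases hF with h0 | ⟨s, hκs, hsn, hspos, hsn', hFs, -⟩
  · -- no full coset
    subst h0
    rcases Nat.lt_or_ge N (h + 1) with h3 | h3
    · rcases ht N hNd with h4 | h4
      · -- `h ∣ N`, so `N = h`
        have h5 : ε = 0 := by
          by_contra h6
          have := hmod (by omega) N hNd
          omega
        have h6 : h ≤ N := Nat.le_of_dvd (by omega) (Nat.dvd_of_mod_eq_zero h4)
        have h7 : N = h := by omega
        rw [h7] at hN
        have h8 : h * κ = h * k := by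
          have e1 : κ * h = h * κ := mul_comm _ _
          omega
        have h9 : κ = k := Nat.eq_of_mul_eq_mul_left (by omega) h8
        omega
      · rcases Nat.lt_or_ge N h with h5 | h5
        · rw [Nat.mod_eq_of_lt h5] at h4
          omega
        · have h6 : N = h := by omega
          rw [h6, Nat.mod_self] at h4
          omega
    · have h4 : κ * (h + 1) ≤ κ * N := Nat.mul_le_mul_left _ h3
      have h5 : h * k ≤ h * κ := Nat.mul_le_mul_left _ (by omega)
      have h6 : κ * (h + 1) = h * κ + κ := by ring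
      omega
  · -- some full coset
    have hκs' : κ ≤ s := Nat.le_of_dvd hspos hκs
    rcases Nat.lt_or_ge ε 1 with h3 | h3
    · omega
    · have hε1 : ε = 1 := by omega
      subst hε1
      have hκ1 := hmod rfl κ ⟨N, hN⟩
      obtain ⟨g, hg⟩ := hκf
      -- `κ ∣ h (k - f) + 1`
      have h4 : κ ∣ h * (k - f) + 1 := by
        obtain ⟨t, ht'⟩ : ∃ t, k = f + t := ⟨k - f, by omega⟩
        have h5 : h * (k - f) + 1 + κ * (h * g) = κ * N := by
          rw [← hN, hn, ht', hg]
          rw [Nat.add_sub_cancel_left]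
          ring
        exact (Nat.dvd_add_left (Dvd.intro _ rfl)).1 (by rw [h5]; exact Dvd.intro _ rfl)
      have hκh : h + 1 ≤ κ := by
        by_contra hcon
        rcases Nat.lt_or_ge κ h with h6 | h6
        · rw [Nat.mod_eq_of_lt h6] at hκ1
          omega
        · have h7 : κ = h := by omega
          rw [h7, Nat.mod_self] at hκ1
          omega
      have h5 : k - f = κ ∨ k - f + 1 = κ := by omega
      rcases h5 with h5 | h5
      · rw [h5] at h4
        have h6 : κ ∣ 1 := (Nat.dvd_add_right (Dvd.intro_left h rfl)).1 h4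
        have := Nat.le_of_dvd one_pos h6
        omega
      · have h6 : h * (k - f) + 1 + (h - 1) = κ * h := by
          rw [← h5]
          obtain ⟨g', rfl⟩ : ∃ g', h = g' + 1 := ⟨h - 1, by omega⟩
          rw [Nat.add_sub_cancel]
          ring
        have h7 : κ ∣ h - 1 := (Nat.dvd_add_right h4).1 (by rw [h6]; exact Dvd.intro _ rfl)
        have := Nat.le_of_dvd (by omega) h7
        omega

/-- (P3b) three runs: the difference generates -/
theorem gen_three (n k : ℕ) [NeZero n] (ht : Tame n 3) (hn : n = 3 * k + 1)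
    {A : Finset (ZMod n)} (hk : A.card = k) (hA : ns A 3 ≠ Finset.univ)
    (hNQ : NQ 0 A) {r : ZMod n} (hr : r ≠ 0) (h3 : (A ∪ tr A r).card = k + 3) :
    IsUnit r := by
  by_contra hu
  obtain ⟨κ, f, p, hκ2, hκn, hκd, hκf, hp3, hfk, hnq, hF⟩ :=
    data n 3 k 1 3 le_rfl hn le_rfl hk hA hNQ hr hu (by norm_num) h3
  have hmod : ∀ e, e ∣ n → e % 3 = 1 := by
    intro e hed
    rcases ht e hed with h4 | h4
    · exfalso
      have h5 : 3 ∣ n := (Nat.dvd_of_mod_eq_zero h4).trans hed
      omega
    · exact h4
  have hodd : ∀ e, e ∣ n → e % 2 = 1 := by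
    intro e hed
    by_contra hcon
    have h4 : 2 ∣ n := (Nat.dvd_of_mod_eq_zero (by omega)).trans hed
    have := hmod 2 h4
    omega
  obtain ⟨N, hN⟩ := hκd
  have hN2 : 2 ≤ N := by
    rcases Nat.lt_or_ge N 2 with h3 | h3
    · have : κ * N ≤ κ * 1 := Nat.mul_le_mul_left _ (by omega)
      omega
    · exact h3
  have hNd : N ∣ n := ⟨κ, by rw [hN, mul_comm]⟩
  have hκd : κ ∣ n := ⟨N, hN⟩
  have hκ1 := hmod κ hκd
  have hp2 : 2 ≤ p := by
    by_contra hcon
    have h4 : p * κ ≤ 1 * κ := Nat.mul_le_mul_right _ (by omega)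
    omega
  have hpκ : p * κ ≤ 3 * κ := Nat.mul_le_mul_right _ hp3
  rcases hF with h0 | ⟨s, hκs, hsn, hspos, hsn', hFs, hSK⟩
  · subst h0
    -- `k ≤ 2 κ`
    have h4 : N ≤ 6 := by
      by_contra hcon
      have h5 : κ * 7 ≤ κ * N := Nat.mul_le_mul_left _ (by omega)
      omega
    have h5 := hmod N hNd
    have h6 := hodd N hNd
    omega
  · have hκs' : κ ≤ s := Nat.le_of_dvd hspos hκs
    obtain ⟨g, hg⟩ := hκf
    have h4 : κ ∣ 3 * (k - f) + 1 := by
      obtain ⟨t, ht'⟩ : ∃ t, k = f + t := ⟨k - f, by omega⟩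
      have h5 : 3 * (k - f) + 1 + κ * (3 * g) = κ * N := by
        rw [← hN, hn, ht', hg]
        rw [Nat.add_sub_cancel_left]
        ring
      exact (Nat.dvd_add_left (Dvd.intro _ rfl)).1 (by rw [h5]; exact Dvd.intro _ rfl)
    obtain ⟨q, hq⟩ := h4
    rcases hκs'.lt_or_eq with h5 | h5
    · -- `s ≥ 3 κ`
      obtain ⟨j, hj⟩ := hκs
      have hj3 : 3 ≤ j := by
        by_contra hcon
        have h6 := hodd s hsn
        have h7 : j = 0 ∨ j = 1 ∨ j = 2 := by omega
        rcases h7 with h7 | h7 | h7
        · rw [h7] at hj; omega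
        · rw [h7] at hj; omega
        · rw [h7] at hj; omega
      have h6 : κ * 3 ≤ κ * j := Nat.mul_le_mul_left _ hj3
      omega
    · have h6 := hSK h5.symm
      -- `3 (k - f) + 1 = κ q`, `κ ≤ 3 (k-f) + 1`
      have hp : p = 3 ∨ p = 2 := by omega
      rcases hp with hp | hp
      · subst hp
        have hq5 : 5 ≤ q := by
          by_contra hcon
          have h7 : κ * q ≤ κ * 4 := Nat.mul_le_mul_left _ (by omega)
          omega
        have hq6 : q ≤ 6 := by
          by_contra hcon
          have h7 : κ * 7 ≤ κ * q := Nat.mul_le_mul_left _ (by omega)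
          omega
        -- `q κ = 1 mod 3`
        have h8 : (κ * q) % 3 = 1 := by rw [← hq]; omega
        rw [Nat.mul_mod, hκ1] at h8
        have h9 : q = 5 ∨ q = 6 := by omega
        rcases h9 with rfl | rfl
        · omega
        · omega
      · subst hp
        have hq3 : q ≤ 3 := by
          by_contra hcon
          have h7 : κ * 4 ≤ κ * q := Nat.mul_le_mul_left _ (by omega)
          omega
        have h8 : (κ * q) % 3 = 1 := by rw [← hq]; omega
        rw [Nat.mul_mod, hκ1] at h8
        have h9 : q = 0 ∨ q = 1 ∨ q = 2 ∨ q = 3 := by omega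
        rcases h9 with rfl | rfl | rfl | rfl
        · omega
        · omega
        · omega
        · omega

end Pool.Agent.Helper77.FF
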