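import Mathlib
import Pool.Agent.Helper20.FF.Defs

/-!
# Soundness: the sets of the classification do not span
-/

set_option autoImplicit false

open scoped Pointwise

namespace Pool.Agent.Helper77.FF

open Pool.Agent.Helper82.Kneser Pool.Agent.Helper20.Span Pool.Agent.Helper20.FF

/-- multiples of a unit -/
lemma mul_unit_eq {m : ℕ} {δ : ZMod m} (hδ : IsUnit δ) {c c' : ℕ}
    (h : (c : ZMod m) * δ = (c' : ZMod m) * δ) : c ≡ c' [MOD m] := by
  rw [hδ.mul_left_inj] at h
  exact (ZMod.natCast_eq_natCast_iff _ _ _).1 h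

/-- sums of elements of a progression -/
lemma sum_prog {m h : ℕ} {a δ : ZMod m} {f : Fin h → ZMod m} {c : Fin h → ℕ}
    (hf : ∀ i, f i = a + c i * δ) : ∑ i, f i = h * a + ((∑ i, c i : ℕ) : ZMod m) * δ := by
  rw [Finset.sum_congr rfl (fun i _ => hf i), Finset.sum_add_distrib, ← Finset.sum_mul,
    Finset.sum_const, Finset.card_univ, Fintype.card_fin, nsmul_eq_mul]
  push_cast
  ring

/-- (S) soundness -/
theorem sound {h n : ℕ} (hh : 3 ≤ h) (hn : 0 < n) {A : Set (ZMod n)} (hA : Ext h n A) :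
    ∃ x : ZMod n, ∀ f : Fin h → ZMod n, (∀ i, f i ∈ A) → ∑ i, f i ≠ x := by
  induction hA with
  | empty =>
    refine ⟨0, fun f hf => ?_⟩
    exact absurd (hf ⟨0, by omega⟩) (Set.notMem_empty _)
  | prog n a δ h2 hδ =>
    refine ⟨h * a + ((n - 1 : ℕ) : ZMod n) * δ, fun f hf hsum => ?_⟩
    choose c hc hfc using hf
    rw [sum_prog hfc] at hsum
    have h3 := mul_unit_eq hδ (add_left_cancel hsum)
    have h4 : ∑ i, c i ≤ h * ((n - 2) / h) := by
      calc ∑ i, c i ≤ ∑ _i : Fin h, (n - 2) / h := Finset.sum_le_sum fun i _ => hc i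
        _ = h * ((n - 2) / h) := by
          rw [Finset.sum_const, Finset.card_univ, Fintype.card_fin, smul_eq_mul]
    have h5 : h * ((n - 2) / h) ≤ n - 2 := Nat.mul_div_le _ _
    rw [Nat.ModEq, Nat.mod_eq_of_lt (by omega), Nat.mod_eq_of_lt (by omega)] at h3
    omega
  | hole n m k hm a δ u v hkm hδ hu hv =>
    refine ⟨u + ((h - 1 : ℕ) : ZMod n) * v, fun f hf hsum => ?_⟩
    -- class indices
    have hcl : ∀ i, ∃ c : ℕ, c ≤ k + 1 ∧ ZMod.castHom hm (ZMod m) (f i) = a + c * δ ∧
        (c = k → f i ≠ u) ∧ (c = k + 1 → f i = v) := by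
      intro i
      rcases hf i with ⟨c, hc, hfc⟩ | ⟨hfc, hne⟩ | hfv
      · exact ⟨c, by omega, hfc, by omega, by omega⟩
      · exact ⟨k, by omega, hfc, fun _ => hne, by omega⟩
      · refine ⟨k + 1, le_rfl, ?_, by omega, fun _ => hfv⟩
        rw [hfv, hv]
        push_cast
        rfl
    choose c hc hfc hcu hcv using hcl
    have hmpos : 0 < m := Nat.pos_of_dvd_of_pos hm hn
    have h1 := congrArg (ZMod.castHom hm (ZMod m)) hsum
    rw [map_sum, sum_prog hfc, map_add, map_mul, hu, hv, map_natCast] at h1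
    have h2 : a + (k : ZMod m) * δ + ((h - 1 : ℕ) : ZMod m) * (a + ((k : ZMod m) + 1) * δ)
        = h * a + ((h * (k + 1) - 1 : ℕ) : ZMod m) * δ := by
      obtain ⟨g, rfl⟩ : ∃ g, h = g + 1 := ⟨h - 1, by omega⟩
      rw [Nat.add_sub_cancel, show (g + 1) * (k + 1) - 1 = g * (k + 1) + k by
        rw [Nat.succ_mul]; omega]
      push_cast
      ring
    rw [h2] at h1
    have h3 := mul_unit_eq hδ (add_left_cancel h1)
    have h4 : ∑ i, c i ≤ h * (k + 1) := by
      calc ∑ i, c i ≤ ∑ _i : Fin h, (k + 1) := Finset.sum_le_sum fun i _ => hc i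
        _ = h * (k + 1) := by
          rw [Finset.sum_const, Finset.card_univ, Fintype.card_fin, smul_eq_mul]
    have hk1 : 0 < h * (k + 1) := Nat.mul_pos (by omega) (by omega)
    have h5 : ∑ i, c i = h * (k + 1) - 1 := by
      rcases h4.lt_or_eq with h6 | h6
      · rw [Nat.ModEq, Nat.mod_eq_of_lt (by omega), Nat.mod_eq_of_lt (by omega)] at h3
        exact h3
      · exfalso
        rw [h6] at h3
        have h7 : (h * (k + 1) - 1) + 1 ≡ (h * (k + 1) - 1) [MOD m] := by
          rw [Nat.sub_add_cancel hk1]; exact h3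
        have h8 : m ∣ 1 := by
          have h9 := (Nat.modEq_iff_dvd' (by omega)).1 h7.symm
          rwa [Nat.add_sub_cancel_left] at h9
        have h9 := Nat.le_of_dvd one_pos h8
        have h10 : 3 * 1 ≤ h * (k + 1) := Nat.mul_le_mul hh (by omega)
        omega
    -- exactly one index is `k`
    have h6 : ∑ i, (k + 1 - c i) = 1 := by
      have h7 : ∑ i, (k + 1 - c i) + ∑ i, c i = h * (k + 1) := by
        rw [← Finset.sum_add_distrib, Finset.sum_congr rfl
          (fun i _ => Nat.sub_add_cancel (hc i)), Finset.sum_const, Finset.card_univ,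
          Fintype.card_fin, smul_eq_mul]
      omega
    obtain ⟨i, hi⟩ : ∃ i, c i ≤ k := by
      by_contra hcon
      push Not at hcon
      have : ∑ i, (k + 1 - c i) = 0 :=
        Finset.sum_eq_zero fun i _ => by have := hcon i; omega
      omega
    have h7 : (k + 1 - c i) + ∑ j ∈ Finset.univ.erase i, (k + 1 - c j) = 1 := by
      rw [Finset.add_sum_erase _ (fun j => k + 1 - c j) (Finset.mem_univ i)]
      exact h6
    have h8 : c i = k := by omega
    have h9 : ∀ j, j ≠ i → c j = k + 1 := by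
      intro j hj
      have h10 : k + 1 - c j ≤ ∑ j ∈ Finset.univ.erase i, (k + 1 - c j) :=
        Finset.single_le_sum (f := fun j => k + 1 - c j) (fun _ _ => Nat.zero_le _)
          (Finset.mem_erase.2 ⟨hj, Finset.mem_univ j⟩)
      have := hc j
      omega
    have h10 : ∑ j, f j = f i + ((h - 1 : ℕ) : ZMod n) * v := by
      rw [← Finset.add_sum_erase _ _ (Finset.mem_univ i)]
      congr 1
      rw [Finset.sum_congr rfl (g := fun _ => v)
        (fun j hj => hcv j (h9 j (Finset.ne_of_mem_erase hj))), Finset.sum_const,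
        Finset.card_erase_of_mem (Finset.mem_univ i), Finset.card_univ, Fintype.card_fin,
        nsmul_eq_mul]
    rw [h10] at hsum
    exact hcu i h8 (add_right_cancel hsum)
  | three₁ n k a δ h3 hnk hk hδ =>
    subst h3
    refine ⟨(3 : ℕ) * a + ((1 : ℕ) : ZMod n) * δ, fun f hf hsum => ?_⟩
    have hcl : ∀ i, ∃ c : ℕ, (c = 0 ∨ (2 ≤ c ∧ c < k) ∨ c = k + 1) ∧ f i = a + c * δ := by
      intro i
      rcases hf i with h4 | ⟨c, hc, hc', h4⟩ | h4
      · exact ⟨0, Or.inl rfl, by rw [h4]; simp⟩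
      · exact ⟨c, Or.inr (Or.inl ⟨hc, hc'⟩), h4⟩
      · exact ⟨k + 1, Or.inr (Or.inr rfl), by rw [h4]; push_cast; rfl⟩
    choose c hc hfc using hcl
    rw [sum_prog hfc] at hsum
    have h4 := mul_unit_eq hδ (add_left_cancel hsum)
    rw [Fin.sum_univ_three] at h4
    have e0 := hc 0
    have e1 := hc 1
    have e2 := hc 2
    rcases Nat.eq_zero_or_pos (c 0 + c 1 + c 2) with h6 | h6
    · rw [h6, Nat.ModEq, Nat.zero_mod, Nat.mod_eq_of_lt (by omega)] at h4
      omega
    · obtain ⟨q, hq⟩ := (Nat.modEq_iff_dvd' (show 1 ≤ c 0 + c 1 + c 2 by omega)).1 h4.symm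
      have hq1 : q ≤ 1 := by
        by_contra hcon
        have : n * 2 ≤ n * q := Nat.mul_le_mul_left _ (by omega)
        omega
      have hq2 : q = 0 ∨ q = 1 := by omega
      rcases hq2 with rfl | rfl
      · omega
      · omega
  | three₂ n k a δ h3 hnk hk hδ =>
    subst h3
    refine ⟨(3 : ℕ) * a + ((3 * k : ℕ) : ZMod n) * δ, fun f hf hsum => ?_⟩
    have hcl : ∀ i, ∃ c : ℕ, (c + 3 ≤ k ∨ c = k - 1 ∨ c = k + 1) ∧ f i = a + c * δ := by
      intro i
      rcases hf i with ⟨c, hc, h4⟩ | h4 | h4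
      · exact ⟨c, Or.inl hc, h4⟩
      · refine ⟨k - 1, Or.inr (Or.inl rfl), ?_⟩
        rw [h4, Nat.cast_sub hk, Nat.cast_one]
      · exact ⟨k + 1, Or.inr (Or.inr rfl), by rw [h4]; push_cast; rfl⟩
    choose c hc hfc using hcl
    rw [sum_prog hfc] at hsum
    have h4 := mul_unit_eq hδ (add_left_cancel hsum)
    rw [Fin.sum_univ_three] at h4
    have e0 := hc 0
    have e1 := hc 1
    have e2 := hc 2
    rcases Nat.lt_or_ge (c 0 + c 1 + c 2) (3 * k) with h6 | h6
    · rw [Nat.ModEq, Nat.mod_eq_of_lt (by omega), Nat.mod_eq_of_lt (by omega)] at h4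
      omega
    · obtain ⟨q, hq⟩ := (Nat.modEq_iff_dvd' h6).1 h4.symm
      have hq1 : q < 1 := by
        by_contra hcon
        have : n * 1 ≤ n * q := Nat.mul_le_mul_left _ (by omega)
        omega
      have hq2 : q = 0 := by omega
      subst hq2
      omega
  | four a δ h4 hδ =>
    subst h4
    refine ⟨(4 : ℕ) * a + ((11 : ℕ) : ZMod 13) * δ, fun f hf hsum => ?_⟩
    have hcl : ∀ i, ∃ c : ℕ, (c = 0 ∨ c = 1 ∨ c = 4) ∧ f i = a + c * δ := by
      intro i
      rcases hf i with h4 | h4 | h4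
      · exact ⟨0, Or.inl rfl, by rw [h4]; simp⟩
      · exact ⟨1, Or.inr (Or.inl rfl), by rw [h4]; simp⟩
      · exact ⟨4, Or.inr (Or.inr rfl), by rw [h4]; simp⟩
    choose c hc hfc using hcl
    rw [sum_prog hfc] at hsum
    have h4 := mul_unit_eq hδ (add_left_cancel hsum)
    rw [Fin.sum_univ_four, Nat.ModEq] at h4
    have e0 := hc 0
    have e1 := hc 1
    have e2 := hc 2
    have e3 := hc 3
    omega
  | lift n d hd B hB ih =>
    have hdpos : 0 < d := Nat.pos_of_dvd_of_pos hd hn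
    obtain ⟨y, hy⟩ := ih hdpos
    obtain ⟨x, hx⟩ := ZMod.castHom_surjective hd y
    refine ⟨x, fun f hf hsum => ?_⟩
    apply hy (fun i => ZMod.castHom hd (ZMod d) (f i)) (fun i => hf i)
    rw [← map_sum, hsum, hx]
  | step n m t q hmt δ g B hq hδ hB ih =>
    have hmpos : 0 < m := by omega
    have htpos : 0 < t := Nat.pos_of_ne_zero fun h => by rw [h] at hmt; omega
    have : NeZero t := ⟨htpos.ne'⟩
    obtain ⟨y, hy⟩ := ih htpos
    refine ⟨(h : ZMod n) * g + ((m * y.val : ℕ) : ZMod n), fun f hf hsum => ?_⟩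
    set φ := ZMod.castHom (Dvd.intro t hmt) (ZMod m) with hφ
    have hφm : ∀ z : ℕ, φ ((m * z : ℕ) : ZMod n) = 0 := by
      intro z
      rw [map_natCast, ZMod.natCast_eq_zero_iff]
      exact Dvd.intro _ rfl
    have hcl : ∀ i, ∃ c : ℕ, c ≤ q ∧ φ (f i) = φ g + c * δ ∧
        (c = 0 → ∃ z ∈ B, f i = g + ((m * z.val : ℕ) : ZMod n)) := by
      intro i
      rcases hf i with ⟨c, hc, hc', h4⟩ | ⟨z, hz, h4⟩
      · refine ⟨c, hc', ?_, by omega⟩
        have h5 : φ (f i - g) = c * δ := h4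
        rw [map_sub] at h5
        rw [← h5]; ring
      · refine ⟨0, Nat.zero_le _, ?_, fun _ => ⟨z, hz, h4⟩⟩
        rw [h4, map_add, hφm]
        simp
    choose c hc hfc hc0 using hcl
    have h1 := congrArg φ hsum
    rw [map_sum, sum_prog hfc, map_add, map_mul, hφm, map_natCast] at h1
    have h2 : h * φ g + ((∑ i, c i : ℕ) : ZMod m) * δ = h * φ g + ((0 : ℕ) : ZMod m) * δ := by
      rw [h1]; simp
    have h3 := mul_unit_eq hδ (add_left_cancel h2)
    have h4 : ∑ i, c i ≤ h * q := by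
      calc ∑ i, c i ≤ ∑ _i : Fin h, q := Finset.sum_le_sum fun i _ => hc i
        _ = h * q := by
          rw [Finset.sum_const, Finset.card_univ, Fintype.card_fin, smul_eq_mul]
    rw [Nat.ModEq, Nat.mod_eq_of_lt (by omega), Nat.zero_mod] at h3
    have h5 : ∀ i, c i = 0 := by
      intro i
      exact (Finset.sum_eq_zero_iff.1 h3) i (Finset.mem_univ i)
    have h6 : ∀ i, ∃ z ∈ B, f i = g + ((m * z.val : ℕ) : ZMod n) := fun i => hc0 i (h5 i)
    choose z hz hfz using h6
    apply hy z hz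
    have h7 : ((m * ∑ i, (z i).val : ℕ) : ZMod n) = ((m * y.val : ℕ) : ZMod n) := by
      have h8 : ∑ i, f i = (h : ZMod n) * g + ((m * ∑ i, (z i).val : ℕ) : ZMod n) := by
        rw [Finset.sum_congr rfl (fun i _ => hfz i), Finset.sum_add_distrib, Finset.sum_const,
          Finset.card_univ, Fintype.card_fin, nsmul_eq_mul, Finset.mul_sum]
        push_cast
        rfl
      rw [h8] at hsum
      exact add_left_cancel hsum
    rw [ZMod.natCast_eq_natCast_iff, ← hmt] at h7
    have h8 : ∑ i, (z i).val ≡ y.val [MOD t] := Nat.ModEq.mul_left_cancel' hmpos.ne' h7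
    rw [← ZMod.natCast_eq_natCast_iff] at h8
    push_cast at h8
    simpa using h8

end Pool.Agent.Helper77.FF
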